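import Pool.Agent.W2helper86.FD.Union

/-!
# EF1 and approximate Pareto optimality: instances of bounded spread

An agent has spread at most `ρ` if the value of the set of all goods is at most `ρ` times the value
of any single good. We determine, for `1 ≤ ρ ≤ 2`, the best constant for the instances in which all
agents except at most one have spread at most `ρ`, for every number `n ≥ 2` of agents: it is
`1 / √ρ`. So for spread at most `2` it is `1 / √2`, independently of `n`; and for every `ρ ≥ 1` it is
at least `1 / √ρ`, which is more than `2 ^ (-(1 - 1 / n))` as long as `ρ < 4 ^ (1 - 1 / n)`: an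
instance which has no allocation that is EF1 and `α`-PO has at least two agents with
`v (M) > v (g) / α ^ 2` for some good `g`.

Lower bound. For every allocation `B` there is an EF1 allocation in which some agent has at least
her value in `B` (monotone valuations suffice): bundles contained in the `B j` are enlarged as
long as their owner is not envied; at the end the full bundle `B j` has an owner who is not envied,
in particular not by `j`. This is applied to an allocation which dominates, by the factor `√ρ`, an
EF1 allocation that is best for the exceptional agent. It gives an EF1 allocation in which some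
other agent has more than `√ρ` times the least possible value, and which is not dominated by the
factor `√ρ`.

Upper bound. Instances with two and with three agents and nine goods of three types, given by
tables of levels (found by a SAT solver, checked by `decide`); all values of nonempty sets are in
`[1, ρ]`, so that monotone functions are subadditive. Disjoint unions give all `n ≥ 2`.
-/

set_option autoImplicit false

namespace Pool.Agent.Results.MP_f6d244_lc.BoundedSpread

open Pool.Agent.W2helper86.FD

theorem result :
    -- for every allocation `B` some EF1 allocation gives some agent at least her value in `B`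
    (∀ (n : ℕ) (M : Type) [Fintype M] [DecidableEq M] (v : Fin n → Finset M → ℝ), 1 ≤ n →
      (∀ i S T, S ⊆ T → v i S ≤ v i T) → ∀ B : Fin n → Finset M, IsAlloc B →
        ∃ A : Fin n → Finset M, IsAlloc A ∧ EF1 v A ∧ ∃ j, v j (B j) ≤ v j (A j)) ∧
    -- monotone valuations, spread at most `ρ` except for one agent: EF1 and `1 / √ρ`-PO
    (∀ (n : ℕ) (M : Type) [Fintype M] [DecidableEq M] (v : Fin n → Finset M → ℝ) (z : Fin n)
      (ρ : ℝ), 1 ≤ ρ → (∀ i, v i ∅ = 0) → (∀ i S T, S ⊆ T → v i S ≤ v i T) →
      (∀ i, i ≠ z → ∀ g, v i Finset.univ ≤ ρ * v i {g}) →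
        ∃ A : Fin n → Finset M, IsAlloc A ∧ EF1 v A ∧ IsPO (1 / √ρ) v A) ∧
    -- the best constant for spread at most `ρ` except for one agent, `1 ≤ ρ ≤ 2`
    (∀ (n : ℕ) (ρ : ℝ), 2 ≤ n → 1 ≤ ρ → ρ ≤ 2 →
      IsGreatest {α : ℝ | 0 ≤ α ∧ α ≤ 1 ∧ Good n ρ α} (1 / √ρ)) ∧
    -- the same without the exceptional agent
    (∀ (n : ℕ) (ρ α : ℝ), 2 ≤ n → 1 ≤ ρ → ρ ≤ 2 → 1 / √ρ < α → α ≤ 1 →
      ∃ (M : Type) (_ : Fintype M) (_ : DecidableEq M) (v : Fin n → Finset M → ℝ),
        (∀ i, IsValuation (v i)) ∧ (∀ i g, v i Finset.univ ≤ ρ * v i {g}) ∧
        ∀ A : Fin n → Finset M, IsAlloc A → EF1 v A → ¬ IsPO α v A) := by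
  refine ⟨fun n M _ _ v hn hm B hB => retain hn hm hB.1, ?_, ?_, ?_⟩
  · intro n M _ _ v z ρ hρ h0 hm hs
    refine spread z h0 hm (Real.one_le_sqrt.mpr hρ) ?_
    intro i hi g
    rw [Real.sq_sqrt (by linarith)]
    exact hs i hi g
  · intro n ρ hn h1 h2
    have hs1 : 1 ≤ √ρ := Real.one_le_sqrt.mpr h1
    have hle : 1 / √ρ ≤ 1 := by
      rw [div_le_one (by linarith)]; exact hs1
    refine ⟨⟨by positivity, hle, good_of_spread h1⟩, ?_⟩
    rintro α ⟨-, hα1, hG⟩
    rcases h1.lt_or_eq with h | h
    · by_contra hcon
      exact not_good hn h h2 (not_le.mp hcon) hG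
    · rw [← h]
      simpa using hα1
  · intro n ρ α hn h1 h2 hα hα1
    rcases h1.lt_or_eq with h | h
    · exact exists_hard hn h h2 hα
    · rw [← h] at hα
      simp only [Real.sqrt_one, div_one] at hα
      exact absurd hα1 (not_le.mpr hα)

end Pool.Agent.Results.MP_f6d244_lc.BoundedSpread
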